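import Pool.Agent.L7h71.GB.Stm2

/-!
# Project GB: part FOM (helper73 for helper71)
-/

set_option autoImplicit false

namespace Pool.Agent.L7h73.GB

open Set Function FirstOrder FirstOrder.Language
open Pool.Agent.H533R2.VO (RS)
open Pool.Agent.W889.VC (BP)
open Pool.Agent.W889.FO.St0 (RF LF gr W D)
open Pool.Agent.R617.VT (ar dc ar_e)
open Pool.Agent.L7h71.GB

variable {L : FirstOrder.Language.{0, 0}} {e : (Σ n, (LF L).Relations n) → ℕ} (he : Injective e)

/-- structures on `V` -/
abbrev Sp (e : (Σ n, (LF L).Relations n) → ℕ) (V : Type) : Type := ∀ i, (Fin (ar e i) → V) → Bool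

/-- the relations of the decoded structure -/
def rl {V : Type} (s : Sp e V) {n : ℕ} (Q : RF L n) (v : Fin n → V) : Prop :=
  s (e ⟨n, Q⟩) (fun k => v (Fin.cast (ar_e he ⟨n, Q⟩) k)) = true

/-- the graph of a function symbol -/
def gs {V : Type} (s : Sp e V) {n : ℕ} (F : L.Functions n) (v : Fin n → V) (p : V) : Prop :=
  rl he s (RF.fn F) (Fin.snoc (α := fun _ => V) v p)

/-- functional structures -/
def Fu {V : Type} (s : Sp e V) : Prop :=
  ∀ (F : Σ n, L.Functions n) (v : Fin F.1 → V), ∃ p, gs he s F.2 v p ∧ ∀ q, gs he s F.2 v q → q = p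

variable {he}

/-- the decoded structure -/
@[reducible] noncomputable def DV {V : Type} {s : Sp e V} (h : Fu he s) : L.Structure V where
  funMap := fun {n} F v => (h ⟨n, F⟩ v).choose
  RelMap := fun {_} R v => rl he s (RF.rel R) v

theorem dv_iff {V : Type} {s : Sp e V} (h : Fu he s) {n : ℕ} (F : L.Functions n) (v : Fin n → V)
    (p : V) : @Structure.funMap L V (DV h) n F v = p ↔ gs he s F v p := by
  have h1 := (h ⟨n, F⟩ v).choose_spec
  constructor
  · rintro rfl
    exact h1.1
  · exact fun h2 => (h1.2 p h2).symm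

section meas

variable {V : Type} [Finite V]

omit [Finite V] in
theorem bp_rl {n : ℕ} (Q : RF L n) (v : Fin n → V) : BP (fun s : Sp e V => rl he s Q v) := by
  have h1 : Measurable fun s : Sp e V => s (e ⟨n, Q⟩) (fun k => v (Fin.cast (ar_e he ⟨n, Q⟩) k)) :=
    (measurable_pi_apply _).comp (measurable_pi_apply _)
  exact h1 (MeasurableSpace.measurableSet_top (s := {true}))

theorem bp_fu [Countable L.Symbols] : BP (fun s : Sp e V => Fu he s) := by
  have hF : Countable (Σ n, L.Functions n) :=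
    Function.Injective.countable (f := fun x : Σ n, L.Functions n => (Sum.inl x : L.Symbols))
      Sum.inl_injective
  exact BP.all fun F => BP.all fun v => BP.ex fun p => (bp_rl _ _).and
    (BP.all fun q => (bp_rl _ _).imp (BP.const _))

theorem bp_term [Countable L.Symbols] {γ : Type} (t : L.Term γ) : ∀ (w : γ → V) (p : V),
    BP (fun s : Sp e V => ∃ h : Fu he s, @Term.realize L V (DV h) γ w t = p) := by
  induction t with
  | var i =>
    intro w p
    refine ((bp_fu (he := he)).and (BP.const (w i = p))).congr fun s => ?_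
    exact ⟨fun ⟨h1, h2⟩ => ⟨h1, h2⟩, fun ⟨h1, h2⟩ => ⟨h1, h2⟩⟩
  | @func n F ts ih =>
    intro w p
    have h1 : BP (fun s : Sp e V => ∃ b : Fin n → V,
        (∀ i, ∃ h : Fu he s, @Term.realize L V (DV h) γ w (ts i) = b i) ∧ gs he s F b p) :=
      BP.ex fun b => (BP.all fun i => ih i w (b i)).and (bp_rl _ _)
    refine ((bp_fu (he := he)).and h1).congr fun s => ?_
    constructor
    · rintro ⟨h, b, hb1, hb2⟩
      refine ⟨h, ?_⟩
      have e1 : (fun i => @Term.realize L V (DV h) γ w (ts i)) = b :=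
        funext fun i => (hb1 i).choose_spec
      change @Structure.funMap L V (DV h) n F (fun i => @Term.realize L V (DV h) γ w (ts i)) = p
      rw [e1, dv_iff h]
      exact hb2
    · rintro ⟨h, hp⟩
      exact ⟨h, _, fun i => ⟨h, rfl⟩, (dv_iff h F _ _).1 hp⟩

theorem bp_formula [Countable L.Symbols] {β : Type} {n : ℕ} (φ : L.BoundedFormula β n) :
    ∀ (v : β → V) (xs : Fin n → V),
      BP (fun s : Sp e V => ∃ h : Fu he s, @BoundedFormula.Realize L V (DV h) _ _ φ v xs) := by
  induction φ with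
  | falsum =>
    intro v xs
    refine (BP.const False).congr fun s => ?_
    exact ⟨fun h => h.elim, fun ⟨_, h⟩ => h⟩
  | equal t1 t2 =>
    intro v xs
    have h1 : BP (fun s : Sp e V => ∃ p : V,
        (∃ h : Fu he s, @Term.realize L V (DV h) _ (Sum.elim v xs) t1 = p) ∧
        ∃ h : Fu he s, @Term.realize L V (DV h) _ (Sum.elim v xs) t2 = p) :=
      BP.ex fun p => (bp_term t1 _ p).and (bp_term t2 _ p)
    refine h1.congr fun s => ?_
    constructor
    · rintro ⟨p, ⟨h, h2⟩, h', h3⟩
      exact ⟨h, h2.trans h3.symm⟩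
    · rintro ⟨h, h2⟩
      exact ⟨_, ⟨h, rfl⟩, h, h2.symm⟩
  | @rel n l R ts =>
    intro v xs
    have h1 : BP (fun s : Sp e V => ∃ b : Fin l → V,
        (∀ i, ∃ h : Fu he s, @Term.realize L V (DV h) _ (Sum.elim v xs) (ts i) = b i) ∧
          rl he s (RF.rel R) b) :=
      BP.ex fun b => (BP.all fun i => bp_term (ts i) _ (b i)).and (bp_rl _ _)
    refine ((bp_fu (he := he)).and h1).congr fun s => ?_
    constructor
    · rintro ⟨h, b, hb1, hb2⟩
      refine ⟨h, ?_⟩
      have e1 : (fun i => @Term.realize L V (DV h) _ (Sum.elim v xs) (ts i)) = b :=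
        funext fun i => (hb1 i).choose_spec
      change rl he s (RF.rel R) (fun i => @Term.realize L V (DV h) _ (Sum.elim v xs) (ts i))
      rw [e1]
      exact hb2
    · rintro ⟨h, hp⟩
      exact ⟨h, _, fun i => ⟨h, rfl⟩, hp⟩
  | imp f1 f2 h1 h2 =>
    intro v xs
    refine ((bp_fu (he := he)).and ((h1 v xs).imp (h2 v xs))).congr fun s => ?_
    constructor
    · rintro ⟨h, h3⟩
      refine ⟨h, fun h4 => ?_⟩
      obtain ⟨h', h5⟩ := h3 ⟨h, h4⟩
      exact h5
    · rintro ⟨h, h3⟩
      refine ⟨h, ?_⟩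
      rintro ⟨h', h4⟩
      exact ⟨h, h3 h4⟩
  | all f hf =>
    intro v xs
    refine ((bp_fu (he := he)).and (BP.all fun a : V => hf v (Fin.snoc xs a))).congr fun s => ?_
    constructor
    · rintro ⟨h, h3⟩
      refine ⟨h, fun a => ?_⟩
      obtain ⟨h', h5⟩ := h3 a
      exact h5
    · rintro ⟨h, h3⟩
      exact ⟨h, fun a => ⟨h, h3 a⟩⟩

end meas

theorem countable_sentence [Countable L.Symbols] : Countable L.Sentence := by
  have h3 : Cardinal.mk (Σ n, L.BoundedFormula Empty n) ≤ Cardinal.aleph0 := by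
    refine BoundedFormula.card_le.trans ?_
    refine max_le le_rfl ?_
    rw [Cardinal.mk_eq_zero Empty]
    simp only [zero_add, Cardinal.lift_id]
    exact Cardinal.mk_le_aleph0
  have h4 : Countable (Σ n, L.BoundedFormula Empty n) := Cardinal.mk_le_aleph0_iff.1 h3
  exact (sigma_mk_injective (β := fun n => L.BoundedFormula Empty n) (i := 0)).countable

theorem bp_theory [Countable L.Symbols] {V : Type} [Finite V] (T : L.Theory) :
    BP (fun s : Sp e V => ∃ h : Fu he s, @Theory.Model L V (DV h) T) := by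
  have hsc : Countable L.Sentence := countable_sentence
  have hT' : Countable T := Subtype.countable
  refine ((bp_fu (he := he)).and (BP.all fun φ : T =>
    bp_formula (he := he) φ.1 (default : Empty → V) default)).congr fun s => ?_
  constructor
  · rintro ⟨h, h1⟩
    refine ⟨h, (@Theory.model_iff L V (DV h) T).2 fun φ hφ => ?_⟩
    obtain ⟨h', h2⟩ := h1 ⟨φ, hφ⟩
    exact h2
  · rintro ⟨h, h1⟩
    exact ⟨h, fun φ => ⟨h, (@Theory.model_iff L V (DV h) T).1 h1 φ.1 φ.2⟩⟩

section sub

variable {y : RS (ar e)} {V : Type} (u : V → ℕ)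

theorem gs_pull {n : ℕ} (F : L.Functions n) (v : Fin n → V) (p : V) :
    gs he (fun i t => y i (u ∘ t)) F v p ↔ gr (dc he y) F (u ∘ v) (u p) := by
  have h1 : u ∘ (Fin.snoc (α := fun _ => V) v p) = Fin.snoc (α := fun _ => ℕ) (u ∘ v) (u p) := by
    funext m
    refine Fin.lastCases ?_ (fun m' => ?_) m
    · rw [comp_apply, Fin.snoc_last, Fin.snoc_last]
    · rw [comp_apply, Fin.snoc_castSucc, Fin.snoc_castSucc, comp_apply]
  unfold gr
  rw [← h1]
  exact Iff.rfl

theorem model_iff (hW : W (dc he y)) (hu : Injective u)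
    (A : @Substructure L ℕ (D (dc he y))) (hA : ∀ p, p ∈ A ↔ p ∈ range u)
    (h : Fu he (fun i t => y i (u ∘ t))) (T : L.Theory) :
    @Theory.Model L V (DV h) T ↔
      @Theory.Model L A (@Substructure.inducedStructure L ℕ (D (dc he y)) A) T := by
  let S1 : L.Structure V := DV h
  let S2 : L.Structure ℕ := D (dc he y)
  have hmem : ∀ x, u x ∈ A := fun x => (hA _).2 ⟨x, rfl⟩
  let σ : V ≃ A := Equiv.ofBijective (fun x => (⟨u x, hmem x⟩ : A))
    ⟨fun x x' hx => hu (congrArg Subtype.val hx), fun ⟨p, hp⟩ => by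
      obtain ⟨x, hx⟩ := (hA p).1 hp
      exact ⟨x, Subtype.ext hx⟩⟩
  let f : V ≃[L] A :=
    { σ with
      map_fun' := fun {n} F v => by
        apply Subtype.ext
        change u (@Structure.funMap L V (DV h) n F v) =
          @Structure.funMap L ℕ (D (dc he y)) n F (u ∘ v)
        symm
        rw [Pool.Agent.W889.FO.St0.fun_iff hW, ← gs_pull]
        exact (dv_iff h F v _).1 rfl
      map_rel' := fun {n} R v => Iff.rfl }
  constructor
  · intro h1
    exact StrongHomClass.theory_model f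
  · intro h1
    exact StrongHomClass.theory_model f.symm

end sub

theorem range_eq {b : Finset ℕ} {u : Fin b.card → ℕ} (hu : Injective u) (hb : ∀ j, u j ∈ b) (p : ℕ) :
    p ∈ range u ↔ p ∈ b := by
  constructor
  · rintro ⟨j, rfl⟩
    exact hb j
  · intro hp
    have h1 : Finset.univ.image u = b := by
      apply Finset.eq_of_subset_of_card_le
      · intro q hq
        obtain ⟨j, -, rfl⟩ := Finset.mem_image.1 hq
        exact hb j
      · rw [Finset.card_image_of_injective _ hu, Finset.card_univ, Fintype.card_fin]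
    rw [← h1] at hp
    obtain ⟨j, -, h2⟩ := Finset.mem_image.1 hp
    exact ⟨j, h2⟩

/-- FOM -/
theorem s_FOM : S_FOM := by
  intro L hL T e he
  refine ⟨fun n => {s | ∃ h : Fu he s, @Theory.Model L (Fin n) (DV h) T},
    fun n => bp_theory T, fun y => ⟨fun hW b => ⟨?_, ?_⟩, ?_⟩⟩
  · rintro ⟨u, hu, hub, h, hT⟩
    have hcl : ∀ {n : ℕ} (F : L.Functions n), @ClosedUnder L ℕ (D (dc he y)) n F (b : Set ℕ) := by
      intro n F x hx
      have hx' : ∀ i, ∃ j, u j = x i := fun i => (range_eq hu hub _).2 (hx i)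
      choose v hv using hx'
      have e1 : u ∘ v = x := funext hv
      obtain ⟨p, hp, -⟩ := h ⟨n, F⟩ v
      have h2 := (gs_pull u F v p).1 hp
      rw [e1, ← Pool.Agent.W889.FO.St0.fun_iff hW] at h2
      rw [h2]
      exact hub p
    refine ⟨@Substructure.mk L ℕ (D (dc he y)) b hcl, rfl, ?_⟩
    refine (model_iff u hW hu (@Substructure.mk L ℕ (D (dc he y)) b hcl) (fun p => ?_) h T).1 hT
    exact (range_eq hu hub p).symm
  · rintro ⟨A, hA, hT⟩
    let u : Fin b.card → ℕ := fun j => (b.orderEmbOfFin rfl j : ℕ)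
    have hu : Injective u := (b.orderEmbOfFin rfl).injective
    have hub : ∀ j, u j ∈ b := fun j => b.orderEmbOfFin_mem rfl j
    have hAu : ∀ p, p ∈ A ↔ p ∈ range u := by
      intro p
      rw [range_eq hu hub, ← Finset.mem_coe, ← hA]
      exact Iff.rfl
    have h : Fu he (fun i t => y i (u ∘ t)) := by
      intro F v
      have h1 : @Structure.funMap L ℕ (D (dc he y)) _ F.2 (u ∘ v) ∈ A :=
        @Substructure.fun_mem L ℕ (D (dc he y)) A _ F.2 _ fun i => (hAu _).2 ⟨v i, rfl⟩
      obtain ⟨p, hp⟩ := (hAu _).1 h1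
      refine ⟨p, (gs_pull u F.2 v p).2 ?_, fun q hq => ?_⟩
      · rw [← Pool.Agent.W889.FO.St0.fun_iff hW]
        exact hp.symm
      · have h2 := (gs_pull u F.2 v q).1 hq
        rw [← Pool.Agent.W889.FO.St0.fun_iff hW] at h2
        exact hu (h2.symm.trans hp.symm)
    exact ⟨u, hu, hub, h, (model_iff u hW hu A hAu h T).2 hT⟩
  · rintro b ⟨u, hu, hub, h, -⟩ n F x hx
    have hx' : ∀ i, ∃ j, u j = x i := fun i => (range_eq hu hub _).2 (hx i)
    choose v hv using hx'
    have e1 : u ∘ v = x := funext hv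
    obtain ⟨p, hp, -⟩ := h ⟨n, F⟩ v
    have h2 := (gs_pull u F v p).1 hp
    rw [e1] at h2
    exact ⟨u p, hub p, h2⟩

end Pool.Agent.L7h73.GB
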